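import Mathlib
import Pool.Agent.H749R6.MG.Ab

/-! Primes shortly above the dilates of almost every `x`: the mirror image of
`Pool.Agent.H749R6.MG.Ab`. -/

set_option autoImplicit false

namespace Pool.Agent.H813R2.PT

open MeasureTheory Filter Topology Metric Set Pool.Agent.H749R6.MG

/-- there is a prime in `(y, y + r)` -/
def Up (r y : ℝ) : Prop := ∃ p : ℕ, p.Prime ∧ y < p ∧ (p : ℝ) < y + r

theorem up_meas (r T : ℝ) : MeasurableSet {x : ℝ | Up r (T * x)} := by
  have : {x : ℝ | Up r (T * x)} = ⋃ p : ℕ, ⋃ _ : p.Prime,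
      ({x : ℝ | T * x < p} ∩ {x : ℝ | (p : ℝ) < T * x + r}) := by
    ext x
    simp only [mem_iUnion, exists_prop]
    rfl
  rw [this]
  refine MeasurableSet.iUnion fun p => MeasurableSet.iUnion fun _ => MeasurableSet.inter ?_ ?_
  · exact measurableSet_lt (f := fun x : ℝ => T * x) (g := fun _ : ℝ => (p : ℝ))
      (by fun_prop) measurable_const
  · exact measurableSet_lt (f := fun _ : ℝ => (p : ℝ)) (g := fun x : ℝ => T * x + r)
      measurable_const (by fun_prop)

theorem window_up (lam : ℝ) (hlam : 0 < lam) : ∃ c₀ : ℝ, 0 < c₀ ∧ ∀ t : ℕ → ℝ,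
    Tendsto t atTop atTop → ∀ w δ : ℝ, 0 < w → 0 < δ → ∀ᶠ n in atTop,
      ENNReal.ofReal (c₀ * (δ * w)) ≤
        volume (Icc w ((1 + δ) * w) ∩ {x | Up (lam * Real.log (t n)) (t n * x)}) := by
  obtain ⟨c₁, hc₁, h⟩ := window_scaled lam hlam
  refine ⟨c₁ / 2, by positivity, fun t ht w δ hw hδ => ?_⟩
  have hwδ : 0 < δ * w := by positivity
  have hlim : Tendsto (fun T : ℝ => lam * (Real.log T / T)) atTop (𝓝 0) := by
    have h1 : Tendsto (fun T : ℝ => Real.log T / T) atTop (𝓝 0) :=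
      Real.isLittleO_log_id_atTop.tendsto_div_nhds_zero
    have h2 := h1.const_mul lam
    rw [mul_zero] at h2
    exact h2
  have hsmall : ∀ᶠ T : ℝ in atTop, lam * (Real.log T / T) < c₁ / 2 * (δ * w) :=
    hlim.eventually_lt_const (by positivity)
  filter_upwards [h t ht w δ hw hδ, ht.eventually hsmall, ht.eventually_gt_atTop 1] with n hn hs hT1
  set T := t n with hT
  have hT0 : 0 < T := by linarith
  set s : ℝ := lam * (Real.log T / T) with hsdef
  have hs0 : 0 ≤ s := mul_nonneg hlam.le (div_nonneg (Real.log_nonneg hT1.le) hT0.le)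
  have hTs : T * s = lam * Real.log T := by
    rw [hsdef]
    field_simp
  set S : Set ℝ := Icc w ((1 + δ) * w) ∩ {x | Above (lam * Real.log T) (T * x)} with hS
  have hcov : S ⊆ Icc w (w + s) ∪ (S ∩ Ici (w + s)) := by
    intro y hy
    rcases le_total y (w + s) with h1 | h1
    · exact Or.inl ⟨hy.1.1, h1⟩
    · exact Or.inr ⟨hy, h1⟩
  have hpre : (fun x => x + s) ⁻¹' (S ∩ Ici (w + s)) ⊆
      Icc w ((1 + δ) * w) ∩ {x | Up (lam * Real.log T) (T * x)} := by
    rintro x ⟨⟨⟨_, h2⟩, p, hp, h3, h4⟩, h5⟩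
    have h6 : T * (x + s) = T * x + lam * Real.log T := by rw [mul_add, hTs]
    rw [h6] at h3 h4
    rw [mem_Ici] at h5
    refine ⟨⟨by linarith, by linarith⟩, p, hp, by linarith, h4⟩
  have hvol : volume (S ∩ Ici (w + s)) ≤
      volume (Icc w ((1 + δ) * w) ∩ {x | Up (lam * Real.log T) (T * x)}) := by
    have h1 := measure_preimage_add_right (volume : Measure ℝ) s (S ∩ Ici (w + s))
    rw [← h1]
    exact measure_mono hpre
  have h1 : volume S ≤ ENNReal.ofReal s +
      volume (Icc w ((1 + δ) * w) ∩ {x | Up (lam * Real.log T) (T * x)}) := by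
    refine (measure_mono hcov).trans ((measure_union_le _ _).trans (add_le_add ?_ hvol))
    rw [Real.volume_Icc]
    apply ENNReal.ofReal_le_ofReal
    linarith
  have h2 : ENNReal.ofReal (c₁ / 2 * (δ * w)) + ENNReal.ofReal s ≤ ENNReal.ofReal (c₁ * (δ * w)) := by
    rw [← ENNReal.ofReal_add (by positivity) hs0]
    apply ENNReal.ofReal_le_ofReal
    linarith
  have h3 := h2.trans (hn.trans h1)
  rw [add_comm (ENNReal.ofReal s)] at h3
  exact (ENNReal.add_le_add_iff_right ENNReal.ofReal_ne_top).1 h3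

theorem up_main (lam : ℝ) (hlam : 0 < lam) : ∃ c : ℝ, 0 < c ∧ ∀ t : ℕ → ℝ,
    Tendsto t atTop atTop → ∀ᵐ x : ℝ, 0 < x → ∃ᶠ N : ℕ in atTop, c * N ≤
      ({n : ℕ | n < N ∧ ∃ p : ℕ, p.Prime ∧ t n * x < p ∧
        (p : ℝ) < t n * x + lam * Real.log (t n)}.ncard : ℝ) := by
  classical
  obtain ⟨c₀, hc₀, h⟩ := window_up lam hlam
  refine ⟨c₀ / 2, by positivity, fun t ht => ?_⟩
  filter_upwards [upper_density_const _ (fun n => up_meas (lam * Real.log (t n)) (t n)) c₀ hc₀
    (h t ht)] with x hx hx0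
  refine ((hx hx0).and_eventually (eventually_gt_atTop 0)).mono ?_
  rintro N ⟨h1, h2⟩
  have hN : (0 : ℝ) < N := by exact_mod_cast h2
  unfold av at h1
  rw [le_div_iff₀ hN] at h1
  refine h1.trans (le_of_eq ?_)
  have h3 : {n : ℕ | n < N ∧ ∃ p : ℕ, p.Prime ∧ t n * x < p ∧
      (p : ℝ) < t n * x + lam * Real.log (t n)} =
      (((Finset.range N).filter (fun n => Up (lam * Real.log (t n)) (t n * x)) : Finset ℕ) :
        Set ℕ) := by
    ext n
    rw [Finset.mem_coe, Finset.mem_filter, Finset.mem_range]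
    rfl
  rw [h3, Set.ncard_coe_finset, Finset.card_filter]
  push_cast
  refine Finset.sum_congr rfl fun n _ => ?_
  by_cases hf : Up (lam * Real.log (t n)) (t n * x)
  · rw [if_pos hf]
    exact indicator_of_mem (s := {x | Up (lam * Real.log (t n)) (t n * x)}) hf _
  · rw [if_neg hf]
    exact indicator_of_notMem (s := {x | Up (lam * Real.log (t n)) (t n * x)}) hf _

end Pool.Agent.H813R2.PT
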